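import Pool.Agent.Lib.MP_cf17a0_co.Sm.Fin

/-!
# The budget for the kernel
-/

set_option autoImplicit false

namespace Pool.Agent.SignedQ.Sm

open Finset

/-- `∑ i < n, f i` -/
def sumQ (f : ℕ → ℚ) (n : ℕ) : ℚ := Nat.rec 0 (fun i s => s + f i) n

/-- `∏ i < n, f i` -/
def prodQ (f : ℕ → ℚ) (n : ℕ) : ℚ := Nat.rec 1 (fun i s => s * f i) n

/-- powers -/
def powQ (y : ℚ) (n : ℕ) : ℚ := Nat.rec 1 (fun _ s => s * y) n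

/-- The budget, without the factor `C₁`; `v = (1 - ρ)⁻¹`, `W(η) = A + B η` where
`A = 3 z + 3/2 ρ`, `B = 3 z + 3/2 x`. -/
def budR (k : ℕ) (D : Dat) (v ρ x A B : ℚ) : ℚ :=
  sumQ (fun i => (((D.dpi (i + 1)).natAbs + (D.dmi (i + 1)).natAbs : ℕ) : ℚ) *
      powQ v (i + 2) * (A + B * (((k : ℚ) + 1) / ((2 * (k / 2 - 2 * (i + 1)) : ℕ) : ℚ))) *
      prodQ (fun p => ρ + ((k : ℚ) + 1) * x / (((k / 2 - 2 * (i + 1) + p + 1 : ℕ)) : ℚ)) (2 * (i + 1)))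
      ((k / 2 + 1) / 2 - 1) * ((1 + k / 2 % 2 : ℕ) : ℚ) +
    (sumQ (fun t => sumQ (fun u => ((D.nrm t u).natAbs : ℚ) *
        powQ (powQ v (t + 2) / ((t + 3 : ℕ) : ℚ)) u *
        prodQ (fun p => ρ + ((k : ℚ) + 1) * x / ((p + 1 : ℕ) : ℚ)) (k / 2 - (u + 1)))
      (k / (t + 3))) (k - 2) +
    ((D.nrmL).natAbs : ℚ) * powQ v ((k / 2 + 1) / 2) *
      prodQ (fun p => ρ + ((k : ℚ) + 1) * x / ((p + 1 : ℕ) : ℚ)) (k / 2 - 1)) * (2 * (A + B * 2))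

/-- The check: `z` rational with `z ^ 2 ≥ 3 K + 15 / 4`. -/
def budOK (k : ℕ) (D : Dat) (z : ℚ) (M0 E0 : ℕ) : Bool :=
  let K := k / 2
  let M' := M0 + hh k - (K + 1) / 2
  let ρ : ℚ := ((K - 1 : ℕ) : ℚ) / ((M' + K - 1 : ℕ) : ℚ)
  let x : ℚ := 1 / (E0 : ℚ)
  Nat.ble 1 M0 && Nat.ble 1 E0 && Nat.ble ((D.dmi 0).natAbs) ((D.dpi 0).natAbs) &&
    decide (0 ≤ D.dpi 0) && decide (0 < z) && decide (3 * (K : ℚ) + 15 / 4 ≤ z * z) &&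
    decide (4 / 3 * prodQ (fun i => 1 + 1 / ((4 * i + 3 : ℕ) : ℚ)) (K - 1) *
      budR k D ((M' + K - 1 : ℕ) / (M' : ℕ)) ρ x (3 * z + 3 / 2 * ρ) (3 * z + 3 / 2 * x) ≤
      (((D.dpi 0).natAbs - (D.dmi 0).natAbs : ℕ) : ℚ) * ((1 + K % 2 : ℕ) : ℚ))

/-! ### BEGIN J1 -/

/-- TASK J1. -/
theorem sumQ_eq (f : ℕ → ℚ) (n : ℕ) : sumQ f n = ∑ i ∈ range n, f i := by
  induction n with
  | zero => rfl
  | succ n ih =>
    rw [sum_range_succ, ← ih]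
    rfl

/-- TASK J1. -/
theorem prodQ_eq (f : ℕ → ℚ) (n : ℕ) : prodQ f n = ∏ i ∈ range n, f i := by
  induction n with
  | zero => rfl
  | succ n ih =>
    rw [prod_range_succ, ← ih]
    rfl

/-- TASK J1. -/
theorem powQ_eq (y : ℚ) (n : ℕ) : powQ y n = y ^ n := by
  induction n with
  | zero =>
    rw [pow_zero]
    rfl
  | succ n ih =>
    rw [pow_succ, ← ih]
    rfl

theorem j1_natAbs (c : ℤ) : ((c.natAbs : ℕ) : ℚ) = |(c : ℚ)| := by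
  rw [Nat.cast_natAbs, Int.cast_abs]

theorem j1_natAbs' {c : ℤ} (hc : 0 ≤ c) : ((c.natAbs : ℕ) : ℚ) = (c : ℚ) := by
  rw [j1_natAbs, abs_of_nonneg (by exact_mod_cast hc)]

theorem j1_foldr (l : List ℤ) : 0 ≤ l.foldr max 0 := by
  induction l with
  | nil => exact le_refl _
  | cons a l ih => exact le_trans ih (le_max_right _ _)

theorem j1_nrm (D : Dat) (t u : ℕ) : 0 ≤ D.nrm t u := j1_foldr _

theorem j1_nrmL (D : Dat) : 0 ≤ D.nrmL := by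
  unfold Dat.nrmL
  apply List.sum_nonneg
  intro c hc
  obtain ⟨c', -, rfl⟩ := List.mem_map.1 hc
  exact abs_nonneg c'

theorem j1_WF (z ρ x η : ℚ) : WF z ρ x η = (3 * z + 3 / 2 * ρ) + (3 * z + 3 / 2 * x) * η := by
  unfold WF
  ring

theorem j1_psi (k : ℕ) (ρ x : ℚ) (n : ℕ) :
    prodQ (fun p => ρ + ((k : ℚ) + 1) * x / ((p + 1 : ℕ) : ℚ)) n = ∏ p ∈ range n, psi k ρ x p := by
  rw [prodQ_eq]
  apply prod_congr rfl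
  intro p _
  unfold psi
  push_cast
  rfl

theorem j1_psi2 (k : ℕ) (ρ x : ℚ) {i : ℕ} (hi : 2 * i ≤ k / 2) :
    prodQ (fun p => ρ + ((k : ℚ) + 1) * x / (((k / 2 - 2 * i + p + 1 : ℕ)) : ℚ)) (2 * i) =
      ∏ p ∈ Ico (k / 2 - 2 * i) (k / 2), psi k ρ x p := by
  rw [prodQ_eq, prod_Ico_eq_prod_range]
  have h1 : k / 2 - (k / 2 - 2 * i) = 2 * i := by omega
  rw [h1]
  apply prod_congr rfl
  intro p _
  unfold psi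
  push_cast
  rfl

theorem j1_one (k : ℕ) (D : Dat) (z ρ x : ℚ) :
    sumQ (fun i => (((D.dpi (i + 1)).natAbs + (D.dmi (i + 1)).natAbs : ℕ) : ℚ) *
      powQ (1 - ρ)⁻¹ (i + 2) * ((3 * z + 3 / 2 * ρ) + (3 * z + 3 / 2 * x) *
        (((k : ℚ) + 1) / ((2 * (k / 2 - 2 * (i + 1)) : ℕ) : ℚ))) *
      prodQ (fun p => ρ + ((k : ℚ) + 1) * x / (((k / 2 - 2 * (i + 1) + p + 1 : ℕ)) : ℚ))
        (2 * (i + 1))) ((k / 2 + 1) / 2 - 1) * ((1 + k / 2 % 2 : ℕ) : ℚ) = bud1 k D z ρ x := by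
  unfold bud1
  rw [sumQ_eq, mul_comm, sum_Ico_eq_sum_range]
  congr 1
  · push_cast
    rfl
  apply sum_congr rfl
  intro i hi
  rw [mem_range] at hi
  rw [j1_psi2 k ρ x (i := i + 1) (by omega), powQ_eq, ← j1_WF, add_comm 1 i]
  have h1 : (((D.dpi (i + 1)).natAbs + (D.dmi (i + 1)).natAbs : ℕ) : ℚ) =
      |(D.dpi (i + 1) : ℚ)| + |(D.dmi (i + 1) : ℚ)| := by
    rw [Nat.cast_add, j1_natAbs, j1_natAbs]
  rw [h1]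
  have h2 : ((2 * (k / 2 - 2 * (i + 1)) : ℕ) : ℚ) = 2 * ((k / 2 - 2 * (i + 1) : ℕ) : ℚ) := by
    push_cast
    rfl
  rw [h2]
  ring

theorem j1_three (k : ℕ) (D : Dat) (z ρ x : ℚ) :
    sumQ (fun t => sumQ (fun u => ((D.nrm t u).natAbs : ℚ) *
        powQ (powQ (1 - ρ)⁻¹ (t + 2) / ((t + 3 : ℕ) : ℚ)) u *
        prodQ (fun p => ρ + ((k : ℚ) + 1) * x / ((p + 1 : ℕ) : ℚ)) (k / 2 - (u + 1)))
      (k / (t + 3))) (k - 2) * (2 * ((3 * z + 3 / 2 * ρ) + (3 * z + 3 / 2 * x) * 2)) =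
      bud3 k D z ρ x := by
  unfold bud3
  rw [sumQ_eq, sum_mul]
  apply sum_congr rfl
  intro t _
  rw [sumQ_eq, sum_mul]
  apply sum_congr rfl
  intro u _
  rw [← j1_WF, j1_psi, powQ_eq, powQ_eq, j1_natAbs' (j1_nrm D t u)]
  have h1 : ((1 - ρ)⁻¹ ^ (t + 2) / ((t + 3 : ℕ) : ℚ)) =
      1 / (((t + 3 : ℕ) : ℚ) * (1 - ρ) ^ (t + 2)) := by
    rw [one_div, mul_inv, inv_pow, div_eq_mul_inv, mul_comm]
  rw [h1]
  ring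

/-- TASK J1. `bud` from `budR`. -/
theorem bud_eq {k : ℕ} (hk : 4 ≤ k) (D : Dat) {z ρ x : ℚ} (hρ : ρ < 1) :
    bud k D z ρ x = C1 (k / 2) *
      budR k D (1 - ρ)⁻¹ ρ x (3 * z + 3 / 2 * ρ) (3 * z + 3 / 2 * x) := by
  unfold bud budR
  rw [j1_one k D z ρ x, add_mul, j1_three]
  congr 1
  rw [add_assoc]
  congr 1
  congr 1
  unfold bud4
  rw [j1_psi, powQ_eq, j1_natAbs' (j1_nrmL D), ← j1_WF]
  ring

/-- TASK J1. Everything that `final_pos` needs. -/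
theorem bud_of_OK {k : ℕ} (hk : 4 ≤ k) {D : Dat} {z : ℚ} {M0 E0 : ℕ}
    (h : budOK k D z M0 E0 = true) :
    1 ≤ M0 ∧ 1 ≤ E0 ∧ 0 < z ∧ 3 * ((k / 2 : ℕ) : ℚ) + 15 / 4 ≤ z ^ 2 ∧
      |(D.dmi 0 : ℚ)| ≤ (D.dpi 0 : ℚ) ∧
      bud k D z (((k / 2 : ℕ) - 1 : ℚ) /
        (((M0 + hh k - (k / 2 + 1) / 2 : ℕ) : ℚ) + (k / 2 : ℕ) - 1)) (1 / (E0 : ℚ)) ≤
      ((D.dpi 0 : ℚ) - |(D.dmi 0 : ℚ)|) * (1 + ((k / 2 % 2 : ℕ) : ℚ)) := by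
  simp only [budOK, Bool.and_eq_true, decide_eq_true_eq, Nat.ble_eq] at h
  obtain ⟨⟨⟨⟨⟨⟨h1, h2⟩, h3⟩, h4⟩, h5⟩, h6⟩, h7⟩ := h
  have hK : 2 ≤ k / 2 := by omega
  have hh1 : (k / 2 + 1) / 2 ≤ hh k := by
    unfold hh
    have : 1 ≤ (k + 1) / 2 := by omega
    calc (k / 2 + 1) / 2 ≤ k / 2 * 1 := by omega
      _ ≤ k / 2 * ((k + 1) / 2) := Nat.mul_le_mul_left _ this
  have hM' : 1 ≤ M0 + hh k - (k / 2 + 1) / 2 := by omega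
  generalize hMdef : M0 + hh k - (k / 2 + 1) / 2 = M' at h7 hM' ⊢
  have hK1 : ((k / 2 - 1 : ℕ) : ℚ) = ((k / 2 : ℕ) : ℚ) - 1 := by
    rw [Nat.cast_sub (by omega)]
    simp
  have hMK : ((M' + k / 2 - 1 : ℕ) : ℚ) = (M' : ℚ) + ((k / 2 : ℕ) : ℚ) - 1 := by
    rw [Nat.cast_sub (by omega)]
    push_cast
    rfl
  have hKq : (2 : ℚ) ≤ ((k / 2 : ℕ) : ℚ) := by exact_mod_cast hK
  have hMq : (1 : ℚ) ≤ (M' : ℚ) := by exact_mod_cast hM'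
  have hden : (0 : ℚ) < (M' : ℚ) + ((k / 2 : ℕ) : ℚ) - 1 := by linarith
  have hrho : (((k / 2 : ℕ) : ℚ) - 1) / ((M' : ℚ) + ((k / 2 : ℕ) : ℚ) - 1) < 1 := by
    rw [div_lt_one hden]
    linarith
  have hinv : (1 - (((k / 2 : ℕ) : ℚ) - 1) / ((M' : ℚ) + ((k / 2 : ℕ) : ℚ) - 1))⁻¹ =
      ((M' : ℚ) + ((k / 2 : ℕ) : ℚ) - 1) / (M' : ℚ) := by
    have : (1 - (((k / 2 : ℕ) : ℚ) - 1) / ((M' : ℚ) + ((k / 2 : ℕ) : ℚ) - 1)) =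
        (M' : ℚ) / ((M' : ℚ) + ((k / 2 : ℕ) : ℚ) - 1) := by
      field_simp
      ring
    rw [this, inv_div]
  have hdp : ((D.dpi 0).natAbs : ℚ) = (D.dpi 0 : ℚ) := j1_natAbs' h4
  refine ⟨h1, h2, h5, ?_, ?_, ?_⟩
  · rw [pow_two]
    exact h6
  · rw [← j1_natAbs, ← hdp]
    exact_mod_cast h3
  · rw [bud_eq hk D hrho, hinv]
    have hC : C1 (k / 2) = 4 / 3 * prodQ (fun i => 1 + 1 / ((4 * i + 3 : ℕ) : ℚ)) (k / 2 - 1) := by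
      unfold C1
      rw [prodQ_eq]
      push_cast
      rfl
    rw [hC]
    rw [hK1, hMK] at h7
    refine h7.trans (le_of_eq ?_)
    rw [Nat.cast_sub h3, hdp, j1_natAbs]
    push_cast
    rfl

/-! ### END J1 -/

end Pool.Agent.SignedQ.Sm
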