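import Pool.Agent.Lib.MP_cf17a0_co.Mg.G067
import Pool.Agent.Lib.MP_cf17a0_co.Mg.G068

/-!
# The final inequality
-/

set_option autoImplicit false

namespace Pool.Agent.SignedQ.Sm

open Finset PowerSeries

/-! ### BEGIN G1 -/

theorem g1_sum (K : ℕ) (hK : 1 ≤ K) (E : ℚ) (L : ℕ → ℕ)
    (hL : ∀ i < K, (L i : ℚ) ≤ (if i + 1 = K then 3 else 2) * E) :
    3 * ∑ i ∈ range K, (L i : ℚ) ^ 2 / 4 ≤ (3 * (K : ℚ) + 15 / 4) * E ^ 2 := by
  obtain ⟨J, rfl⟩ : ∃ J, K = J + 1 := ⟨K - 1, by omega⟩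
  rw [sum_range_succ]
  have h1 : ∑ i ∈ range J, (L i : ℚ) ^ 2 / 4 ≤ ∑ _i ∈ range J, E ^ 2 := by
    refine sum_le_sum fun i hi => ?_
    have hi' : i < J := mem_range.1 hi
    have h2 := hL i (by omega)
    rw [if_neg (by omega)] at h2
    have h3 : (0 : ℚ) ≤ L i := Nat.cast_nonneg _
    nlinarith
  rw [sum_const, card_range, nsmul_eq_mul] at h1
  have h2 := hL J (by omega)
  rw [if_pos rfl] at h2
  have h3 : (0 : ℚ) ≤ L J := Nat.cast_nonneg _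
  have h4 : (L J : ℚ) ^ 2 ≤ (3 * E) ^ 2 := by
    apply pow_le_pow_left₀ h3 h2
  push_cast
  nlinarith

theorem g1_alg (z r E w η : ℚ) (hw0 : 0 < w) (hE : 0 < E) (h1 : w * (1 - r) ≤ z)
    (h2 : w / E ≤ z) (hη : 0 ≤ η) :
    (3 * w + 3 / 2) * (1 - r + η / E) ≤
      3 * z * (1 + η) + 3 / 2 * (1 - r + η / E) := by
  have h3 : w * (η / E) ≤ z * η := by
    calc w * (η / E) = w / E * η := by ring
      _ ≤ z * η := by
        apply mul_le_mul_of_nonneg_right h2 hη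
  nlinarith

theorem g1_C1 (K : ℕ) : 0 ≤ C1 K := by
  unfold C1
  refine mul_nonneg (by norm_num) (prod_nonneg fun i _ => ?_)
  positivity

/-- TASK G1. **Lower bound for the main term.** With `K = k / 2`, `E = a (n + k)`.

PROOF. `box_lower` with `L = Ln n k a` (`Ln_pos`, `sum_Ln`), `kap_le`. By `Ln_le`
`3 ∑ L i ^ 2 / 4 ≤ 3 / 4 (4 (K - 1) + 9) E ^ 2 = (3 K + 15 / 4) E ^ 2 ≤ (z E) ^ 2`. If `r = 1` or
`E (1 - r) ≤ 1` take `w = z E`; otherwise `w = z / (1 - r)` (`z ^ 2 ≥ 3 K`). `W = 3 w + 3 / 2`; in the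
first case `w (1 - r) ≤ z`, `w / E = z`; in the second `w (1 - r) = z`, `w / E ≤ z`. -/
theorem main_low {n k a : ℕ} (hk : 4 ≤ k) (h : Even (n * k)) (ha : 1 ≤ a) {z : ℚ} (hz : 0 < z)
    (hz2 : 3 * ((k / 2 : ℕ) : ℚ) + 15 / 4 ≤ z ^ 2) {m : ℕ} (hm : 1 ≤ m)
    (hm2 : 2 * m + k / 2 ≤ ∑ j ∈ Icc 1 k, a * (n + j)) :
    ∃ r W : ℚ, (m : ℚ) / (m + (k / 2 : ℕ) - 1) ≤ r ∧ r ≤ 1 ∧ 0 ≤ W ∧ 0 < (kap1 n k a).coeff m ∧
      kap n k a r ≤ C1 (k / 2) * (W * ((kap1 n k a).coeff m * r ^ m)) ∧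
      ∀ η : ℚ, 0 ≤ η → W * (1 - r + η / (a * (n + k) : ℕ)) ≤
        3 * z * (1 + η) + 3 / 2 * (1 - r + η / (a * (n + k) : ℕ)) := by
  have hK : 1 ≤ k / 2 := by omega
  obtain ⟨r, hr0, hr1, hpos, hw⟩ := box_lower hK (Ln n k a) (fun i hi => Ln_pos hk h ha hi) hm
    (by rw [sum_Ln hk a]; exact hm2)
  have hr : 0 < r := by
    refine lt_of_lt_of_le ?_ hr0
    have h1 : (1 : ℚ) ≤ m := by exact_mod_cast hm
    have h2 : (1 : ℚ) ≤ ((k / 2 : ℕ) : ℚ) := by exact_mod_cast hK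
    apply div_pos <;> linarith
  have hEN : 1 ≤ a * (n + k) := Nat.one_le_iff_ne_zero.2 (Nat.mul_ne_zero (by omega) (by omega))
  obtain ⟨E, hE⟩ : ∃ E : ℚ, E = ((a * (n + k) : ℕ) : ℚ) := ⟨_, rfl⟩
  have hE0 : 0 < E := by
    rw [hE]
    exact_mod_cast hEN
  rw [← hE]
  have hS := g1_sum (k / 2) hK E (Ln n k a) (fun i hi => by
    rw [hE]
    have h1 := Ln_le hk h a hi
    have h2 : ((Ln n k a i : ℕ) : ℚ) ≤
        (((if i + 1 = k / 2 then 3 else 2) * (a * (n + k)) : ℕ) : ℚ) := by exact_mod_cast h1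
    refine h2.trans (le_of_eq ?_)
    split_ifs <;> push_cast <;> ring)
  have hkap := kap_le (n := n) (k := k) (a := a) hk h ha hr hr1
  have hK0 : (0 : ℚ) ≤ ((k / 2 : ℕ) : ℚ) := Nat.cast_nonneg _
  have hfin : ∀ w : ℚ, 0 < w → w * (1 - r) ≤ z → w / E ≤ z →
      (3 * ∑ i ∈ range (k / 2), (Ln n k a i : ℚ) ^ 2 / 4 ≤ w ^ 2 ∨
          3 * ((k / 2 : ℕ) : ℚ) ≤ w ^ 2 * (1 - r) ^ 2) →
      ∃ r W : ℚ, (m : ℚ) / (m + (k / 2 : ℕ) - 1) ≤ r ∧ r ≤ 1 ∧ 0 ≤ W ∧ 0 < (kap1 n k a).coeff m ∧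
      kap n k a r ≤ C1 (k / 2) * (W * ((kap1 n k a).coeff m * r ^ m)) ∧
      ∀ η : ℚ, 0 ≤ η → W * (1 - r + η / E) ≤
        3 * z * (1 + η) + 3 / 2 * (1 - r + η / E) := by
    intro w hw0 h1 h2 h3
    refine ⟨r, 3 * w + 3 / 2, hr0, hr1, by positivity, hpos, ?_, ?_⟩
    · refine hkap.trans ?_
      exact mul_le_mul_of_nonneg_left (hw w hw0 h3) (g1_C1 _)
    · intro η hη
      exact g1_alg z r E w η hw0 hE0 h1 h2 hη
  by_cases hc : E * (1 - r) ≤ 1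
  · refine hfin (z * E) (by positivity) ?_ ?_ (Or.inl ?_)
    · calc z * E * (1 - r) = z * (E * (1 - r)) := by ring
        _ ≤ z * 1 := mul_le_mul_of_nonneg_left hc hz.le
        _ = z := mul_one _
    · rw [mul_div_assoc, div_self hE0.ne', mul_one]
    · refine hS.trans ?_
      rw [mul_pow]
      exact mul_le_mul_of_nonneg_right hz2 (by positivity)
  · push Not at hc
    have hρ : 0 < 1 - r := by
      by_contra h0
      push Not at h0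
      have : E * (1 - r) ≤ 0 := mul_nonpos_of_nonneg_of_nonpos hE0.le h0
      linarith
    refine hfin (z / (1 - r)) (by positivity) ?_ ?_ (Or.inr ?_)
    · rw [div_mul_cancel₀ _ hρ.ne']
    · rw [div_div, div_le_iff₀ (by positivity)]
      nlinarith
    · rw [div_pow, div_mul_cancel₀ _ (by positivity)]
      linarith

/-- TASK G1. `box_mono`. -/
theorem kap1_mono {n k a : ℕ} (hk : 4 ≤ k) (h : Even (n * k)) (ha : 1 ≤ a) {m : ℕ}
    (hm2 : 2 * m + 1 + k / 2 ≤ ∑ j ∈ Icc 1 k, a * (n + j)) :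
    (kap1 n k a).coeff m ≤ (kap1 n k a).coeff (m + 1) := by
  exact box_mono (Ln n k a) (fun i hi => Ln_pos hk h ha hi) (by rw [sum_Ln hk a]; exact hm2)

/-! ### END G1 -/

/-- The data of the partial fraction decomposition, multiplied by the common denominator `den`. -/
structure Dat where
  den : ℕ
  dp : List ℤ
  dm : List ℤ
  N : List (List (List ℤ))
  L : List ℤ

namespace Dat

variable (D : Dat)

def dpi (i : ℕ) : ℤ := D.dp.getD i 0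
def dmi (i : ℕ) : ℤ := D.dm.getD i 0
/-- the coefficient `i` of `N_{d,s}`, `d = t + 3`, `s = u + 1` -/
def Ni (t u i : ℕ) : ℤ := ((D.N.getD t []).getD u []).getD i 0
def Li (i : ℕ) : ℤ := D.L.getD i 0

/-- the sup norm of `N_{d,s}`, `d = t + 3`, `s = u + 1` -/
def nrm (t u : ℕ) : ℤ := (((D.N.getD t []).getD u []).map (fun c => |c|)).foldr max 0

/-- the `ℓ¹` norm of `L` -/
def nrmL : ℤ := (D.L.map (fun c => |c|)).sum

end Dat

/-- The shift `h`: `h = K ^ 2` for `k = 2 K`, `h = K (K + 1)` for `k = 2 K + 1`. -/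
def hh (k : ℕ) : ℕ := k / 2 * ((k + 1) / 2)

/-- The decomposition of `F_k = G k`. -/
def Ident (k : ℕ) (D : Dat) : Prop :=
  PowerSeries.C (D.den : ℚ) * X ^ hh k * G k =
    (∑ i ∈ range ((k / 2 + 1) / 2),
      (PowerSeries.C (D.dpi i : ℚ) * (1 + X) ^ (k / 2 % 2) * X ^ (k / 2 / 2 - i) * Sq (k / 2 - 2 * i) +
       PowerSeries.C (D.dmi i : ℚ) * (1 - X) ^ (k / 2 % 2) * (-X) ^ (k / 2 / 2 - i) *
        Sx 1 (k / 2 - 2 * i))) +
    X ^ hh k * (∑ t ∈ range (k - 2), ∑ u ∈ range (k / (t + 3)),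
      (∑ i ∈ range (t + 3), PowerSeries.C (D.Ni t u i : ℚ) * (-X : PowerSeries ℚ) ^ i) *
        Sx (t + 3) (u + 1)) -
    ∑ i ∈ range (hh k), PowerSeries.C (D.Li i : ℚ) * (X : PowerSeries ℚ) ^ i

/-- `W (ρ + η / E)` is at most this (`x = 1 / E`) -/
def WF (z ρ x η : ℚ) : ℚ := 3 * z * (1 + η) + 3 / 2 * (ρ + η * x)

def psi (k : ℕ) (ρ x : ℚ) (p : ℕ) : ℚ := ρ + ((k : ℚ) + 1) * x / ((p : ℚ) + 1)

/-- The D²-terms. -/
def bud1 (k : ℕ) (D : Dat) (z ρ x : ℚ) : ℚ :=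
  (1 + ((k / 2 % 2 : ℕ) : ℚ)) * ∑ i ∈ Ico 1 ((k / 2 + 1) / 2),
    (|(D.dpi i : ℚ)| + |(D.dmi i : ℚ)|) * ((1 - ρ)⁻¹ ^ (i + 1) *
      (WF z ρ x (((k : ℚ) + 1) / (2 * ((k / 2 - 2 * i : ℕ) : ℚ))) *
        ∏ p ∈ Ico (k / 2 - 2 * i) (k / 2), psi k ρ x p))

/-- The poles at the `d`-th roots of unity, `d = t + 3`, of order `s = u + 1`. -/
def bud3 (k : ℕ) (D : Dat) (z ρ x : ℚ) : ℚ :=
  ∑ t ∈ range (k - 2), ∑ u ∈ range (k / (t + 3)), (D.nrm t u : ℚ) *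
    (2 * WF z ρ x 2 * (1 / (((t + 3 : ℕ) : ℚ) * (1 - ρ) ^ (t + 2))) ^ u *
      ∏ p ∈ range (k / 2 - (u + 1)), psi k ρ x p)

/-- The polynomial part. -/
def bud4 (k : ℕ) (D : Dat) (z ρ x : ℚ) : ℚ :=
  (D.nrmL : ℚ) * ((1 - ρ)⁻¹ ^ ((k / 2 + 1) / 2) *
    (2 * WF z ρ x 2 * ∏ p ∈ range (k / 2 - 1), psi k ρ x p))

/-- The budget. -/
def bud (k : ℕ) (D : Dat) (z ρ x : ℚ) : ℚ :=
  C1 (k / 2) * (bud1 k D z ρ x + bud3 k D z ρ x + bud4 k D z ρ x)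

/-! ### BEGIN G2 -/

theorem g2_nrm_nonneg (D : Dat) (t u : ℕ) : 0 ≤ D.nrm t u := by
  unfold Dat.nrm
  generalize ((D.N.getD t []).getD u []).map (fun c => |c|) = l
  cases l with
  | nil => simp
  | cons a l =>
    induction l generalizing a with
    | nil => simp
    | cons b l ih =>
      rw [List.foldr_cons]
      exact le_trans (ih b) (le_max_right _ _)

theorem g2_nrmL_nonneg (D : Dat) : 0 ≤ D.nrmL := by
  unfold Dat.nrmL
  refine List.sum_nonneg (fun x hx => ?_)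
  rw [List.mem_map] at hx
  obtain ⟨c, -, rfl⟩ := hx
  exact abs_nonneg c

theorem g2_C1_nonneg (K : ℕ) : 0 ≤ C1 K := by
  unfold C1
  refine mul_nonneg (by norm_num) (Finset.prod_nonneg (fun i _ => ?_))
  positivity

theorem g2_WF {z ρ ρ' x x' η : ℚ} (hz : 0 ≤ z) (hρ : 0 ≤ ρ) (hρ' : ρ ≤ ρ')
    (hx : 0 ≤ x) (hx' : x ≤ x') (hη : 0 ≤ η) : 0 ≤ WF z ρ x η ∧ WF z ρ x η ≤ WF z ρ' x' η := by
  unfold WF
  constructor
  · positivity
  · have := mul_le_mul_of_nonneg_left hx' hη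
    linarith

theorem g2_psi (k : ℕ) {ρ ρ' x x' : ℚ} (hρ : 0 ≤ ρ) (hρ' : ρ ≤ ρ')
    (hx : 0 ≤ x) (hx' : x ≤ x') (p : ℕ) : 0 ≤ psi k ρ x p ∧ psi k ρ x p ≤ psi k ρ' x' p := by
  unfold psi
  constructor
  · positivity
  · have : ((k : ℚ) + 1) * x / ((p : ℚ) + 1) ≤ ((k : ℚ) + 1) * x' / ((p : ℚ) + 1) := by
      gcongr
    linarith

theorem g2_prod (k : ℕ) {ρ ρ' x x' : ℚ} (hρ : 0 ≤ ρ) (hρ' : ρ ≤ ρ')
    (hx : 0 ≤ x) (hx' : x ≤ x') (s : Finset ℕ) :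
    0 ≤ ∏ p ∈ s, psi k ρ x p ∧ ∏ p ∈ s, psi k ρ x p ≤ ∏ p ∈ s, psi k ρ' x' p :=
  ⟨Finset.prod_nonneg (fun p _ => (g2_psi k hρ hρ' hx hx' p).1),
    Finset.prod_le_prod (fun p _ => (g2_psi k hρ hρ' hx hx' p).1)
      (fun p _ => (g2_psi k hρ hρ' hx hx' p).2)⟩

theorem g2_mul {a b c d : ℚ} (h1 : 0 ≤ a ∧ a ≤ b) (h2 : 0 ≤ c ∧ c ≤ d) :
    0 ≤ a * c ∧ a * c ≤ b * d :=
  ⟨mul_nonneg h1.1 h2.1, mul_le_mul h1.2 h2.2 h2.1 (le_trans h1.1 h1.2)⟩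

theorem g2_const {a : ℚ} (h : 0 ≤ a) : 0 ≤ a ∧ a ≤ a := ⟨h, le_refl a⟩

theorem g2_pow {a b : ℚ} (h1 : 0 ≤ a ∧ a ≤ b) (n : ℕ) : 0 ≤ a ^ n ∧ a ^ n ≤ b ^ n :=
  ⟨pow_nonneg h1.1 n, pow_le_pow_left₀ h1.1 h1.2 n⟩

theorem g2_sum {s : Finset ℕ} {f g : ℕ → ℚ} (h : ∀ i ∈ s, 0 ≤ f i ∧ f i ≤ g i) :
    0 ≤ ∑ i ∈ s, f i ∧ ∑ i ∈ s, f i ≤ ∑ i ∈ s, g i :=
  ⟨Finset.sum_nonneg (fun i hi => (h i hi).1), Finset.sum_le_sum (fun i hi => (h i hi).2)⟩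

theorem g2_inv {ρ ρ' : ℚ} (hρ' : ρ ≤ ρ') (hρ1 : ρ' < 1) :
    0 ≤ (1 - ρ)⁻¹ ∧ (1 - ρ)⁻¹ ≤ (1 - ρ')⁻¹ :=
  ⟨inv_nonneg.2 (by linarith), inv_anti₀ (by linarith) (by linarith)⟩

theorem g2_bud1 (k : ℕ) (D : Dat) {z ρ ρ' x x' : ℚ} (hz : 0 ≤ z) (hρ : 0 ≤ ρ) (hρ' : ρ ≤ ρ')
    (hρ1 : ρ' < 1) (hx : 0 ≤ x) (hx' : x ≤ x') :
    0 ≤ bud1 k D z ρ x ∧ bud1 k D z ρ x ≤ bud1 k D z ρ' x' := by
  unfold bud1
  refine g2_mul (g2_const (by positivity)) (g2_sum (fun i _ => ?_))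
  refine g2_mul (g2_const (by positivity)) (g2_mul (g2_pow (g2_inv hρ' hρ1) _) (g2_mul ?_ ?_))
  · exact g2_WF hz hρ hρ' hx hx' (by positivity)
  · exact g2_prod k hρ hρ' hx hx' _

theorem g2_bud3 (k : ℕ) (D : Dat) {z ρ ρ' x x' : ℚ} (hz : 0 ≤ z) (hρ : 0 ≤ ρ) (hρ' : ρ ≤ ρ')
    (hρ1 : ρ' < 1) (hx : 0 ≤ x) (hx' : x ≤ x') :
    0 ≤ bud3 k D z ρ x ∧ bud3 k D z ρ x ≤ bud3 k D z ρ' x' := by
  unfold bud3
  refine g2_sum (fun t _ => g2_sum (fun u _ => ?_))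
  refine g2_mul (g2_const (by exact_mod_cast g2_nrm_nonneg D t u)) (g2_mul (g2_mul (g2_mul
    (g2_const (by norm_num)) ?_) (g2_pow ?_ _)) ?_)
  · exact g2_WF hz hρ hρ' hx hx' (by norm_num)
  · have h1 : 0 < 1 - ρ' := by linarith
    have h2 : 0 < 1 - ρ := by linarith
    refine ⟨by positivity, ?_⟩
    refine one_div_le_one_div_of_le (by positivity) ?_
    refine mul_le_mul_of_nonneg_left ?_ (by positivity)
    exact pow_le_pow_left₀ h1.le (by linarith) _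
  · exact g2_prod k hρ hρ' hx hx' _

theorem g2_bud4 (k : ℕ) (D : Dat) {z ρ ρ' x x' : ℚ} (hz : 0 ≤ z) (hρ : 0 ≤ ρ) (hρ' : ρ ≤ ρ')
    (hρ1 : ρ' < 1) (hx : 0 ≤ x) (hx' : x ≤ x') :
    0 ≤ bud4 k D z ρ x ∧ bud4 k D z ρ x ≤ bud4 k D z ρ' x' := by
  unfold bud4
  refine g2_mul (g2_const (by exact_mod_cast g2_nrmL_nonneg D)) (g2_mul
    (g2_pow (g2_inv hρ' hρ1) _) (g2_mul (g2_mul (g2_const (by norm_num)) ?_) ?_))
  · exact g2_WF hz hρ hρ' hx hx' (by norm_num)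
  · exact g2_prod k hρ hρ' hx hx' _

/-- TASK G2. Everything is a sum of products of nonnegative monotone functions
(`(1 - ρ)⁻¹` is monotone on `[0, 1)`, `gcongr` may help). -/
theorem bud_mono (k : ℕ) (D : Dat) {z ρ ρ' x x' : ℚ} (hz : 0 ≤ z) (hρ : 0 ≤ ρ) (hρ' : ρ ≤ ρ')
    (hρ1 : ρ' < 1) (hx : 0 ≤ x) (hx' : x ≤ x') : bud k D z ρ x ≤ bud k D z ρ' x' := by
  unfold bud
  refine mul_le_mul_of_nonneg_left ?_ (g2_C1_nonneg _)
  have h1 := (g2_bud1 k D hz hρ hρ' hρ1 hx hx').2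
  have h3 := (g2_bud3 k D hz hρ hρ' hρ1 hx hx').2
  have h4 := (g2_bud4 k D hz hρ hρ' hρ1 hx hx').2
  linarith

theorem g2_foldr (l : List ℤ) : 0 ≤ (l.map (fun c => |c|)).foldr max 0 ∧
    ∀ i, |l.getD i 0| ≤ (l.map (fun c => |c|)).foldr max 0 := by
  induction l with
  | nil => simp
  | cons a l ih =>
    rw [List.map_cons, List.foldr_cons]
    refine ⟨le_trans ih.1 (le_max_right _ _), fun i => ?_⟩
    cases i with
    | zero =>
      rw [List.getD_cons_zero]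
      exact le_max_left _ _
    | succ i =>
      rw [List.getD_cons_succ]
      exact le_trans (ih.2 i) (le_max_right _ _)

/-- TASK G2. -/
theorem abs_Ni_le (D : Dat) (t u i : ℕ) : |(D.Ni t u i : ℚ)| ≤ (D.nrm t u : ℚ) := by
  have h := (g2_foldr ((D.N.getD t []).getD u [])).2 i
  have h' : |D.Ni t u i| ≤ D.nrm t u := h
  exact_mod_cast h'

theorem g2_sumL (l : List ℤ) (m : ℕ) :
    ∑ i ∈ range m, |l.getD i 0| ≤ (l.map (fun c => |c|)).sum := by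
  induction l generalizing m with
  | nil => simp
  | cons a l ih =>
    rw [List.map_cons, List.sum_cons]
    cases m with
    | zero =>
      rw [Finset.range_zero, Finset.sum_empty]
      have := ih 0
      rw [Finset.range_zero, Finset.sum_empty] at this
      positivity
    | succ m =>
      rw [Finset.sum_range_succ']
      simp only [List.getD_cons_succ, List.getD_cons_zero]
      linarith [ih m]

/-- TASK G2. (for `m ≤` the length of the list or not: the other entries are `0`) -/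
theorem sum_abs_Li_le (D : Dat) (m : ℕ) : ∑ i ∈ range m, |(D.Li i : ℚ)| ≤ (D.nrmL : ℚ) := by
  have h : ∑ i ∈ range m, |D.Li i| ≤ D.nrmL := g2_sumL D.L m
  exact_mod_cast h

/-! ### END G2 -/

/-! ### BEGIN G3 -/

theorem g3_E {n k a : ℕ} (hk : 1 ≤ k) (ha : 1 ≤ a) : (0 : ℚ) < ((a * (n + k) : ℕ) : ℚ) := by
  have : 0 < a * (n + k) := by positivity
  exact_mod_cast this

theorem g3_e {n k a : ℕ} (hk : 4 ≤ k) (h : Even (n * k)) (ha : 1 ≤ a) {p : ℕ} (hp : p < k / 2) :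
    1 / ((a * (n + je n p) : ℕ) : ℚ) ≤
      (((k : ℚ) + 1) / (2 * ((p : ℚ) + 1))) / ((a * (n + k) : ℕ) : ℚ) := by
  have hE := g3_E (n := n) (k := k) (a := a) (by omega) ha
  have he : (0 : ℚ) < ((a * (n + je n p) : ℕ) : ℚ) := g3_E (je_pos n p) ha
  have h1 := je_lower hk h hp
  have h2 : 2 * (p + 1) * (a * (n + k)) ≤ (k + 1) * (a * (n + je n p)) := by
    calc 2 * (p + 1) * (a * (n + k)) = a * (2 * (p + 1) * (n + k)) := by ring
      _ ≤ a * ((k + 1) * (n + je n p)) := Nat.mul_le_mul_left a h1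
      _ = (k + 1) * (a * (n + je n p)) := by ring
  have h3 : 2 * ((p : ℚ) + 1) * ((a * (n + k) : ℕ) : ℚ) ≤
      ((k : ℚ) + 1) * ((a * (n + je n p) : ℕ) : ℚ) := by exact_mod_cast h2
  rw [div_div, div_le_div_iff₀ he (by positivity)]
  linarith

theorem g3_psi {n k a : ℕ} (hk : 4 ≤ k) (h : Even (n * k)) (ha : 1 ≤ a) {r : ℚ} (hr1 : r ≤ 1)
    {p : ℕ} (hp : p < k / 2) :
    0 ≤ 1 - r + 2 / ((a * (n + je n p) : ℕ) : ℚ) ∧
    1 - r + 2 / ((a * (n + je n p) : ℕ) : ℚ) ≤ psi k (1 - r) (1 / ((a * (n + k) : ℕ) : ℚ)) p := by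
  have hE := g3_E (n := n) (k := k) (a := a) (by omega) ha
  have he : (0 : ℚ) < ((a * (n + je n p) : ℕ) : ℚ) := g3_E (je_pos n p) ha
  have h1 := g3_e hk h ha hp
  have h2 : (2 : ℚ) / ((a * (n + je n p) : ℕ) : ℚ) = 2 * (1 / ((a * (n + je n p) : ℕ) : ℚ)) := by
    ring
  constructor
  · have : 0 < (2 : ℚ) / ((a * (n + je n p) : ℕ) : ℚ) := by positivity
    linarith
  · unfold psi
    have h3 : ((k : ℚ) + 1) * (1 / ((a * (n + k) : ℕ) : ℚ)) / ((p : ℚ) + 1) =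
        2 * ((((k : ℚ) + 1) / (2 * ((p : ℚ) + 1))) / ((a * (n + k) : ℕ) : ℚ)) := by
      field_simp
    rw [h3, h2]
    linarith

theorem g3_WF {n k a : ℕ} {z r W η : ℚ} (hη : 0 ≤ η)
    (hWF : ∀ η : ℚ, 0 ≤ η → W * (1 - r + η / (a * (n + k) : ℕ)) ≤
        3 * z * (1 + η) + 3 / 2 * (1 - r + η / (a * (n + k) : ℕ))) :
    W * (1 - r + η / (a * (n + k) : ℕ)) ≤ WF z (1 - r) (1 / (a * (n + k) : ℕ)) η := by
  refine (hWF η hη).trans (le_of_eq ?_)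
  unfold WF
  ring

theorem g3_psi_nonneg {n k a : ℕ} {r : ℚ} (hr1 : r ≤ 1) (p : ℕ) :
    0 ≤ psi k (1 - r) (1 / ((a * (n + k) : ℕ) : ℚ)) p := by
  unfold psi
  have : 0 ≤ ((k : ℚ) + 1) * (1 / ((a * (n + k) : ℕ) : ℚ)) / ((p : ℚ) + 1) := by positivity
  linarith

/-- TASK G3. `W * TD`: with `je_lower`
(`e_p = a (n + je n p) ≥ 2 (p + 1) E / (k + 1)`, so `1 / e_p ≤ (k + 1) / (2 (p + 1) E)`): the first
factor of `TD` is `≤ 1 - r + η / E` with `η = (k + 1) / (2 (K - 2 i))`, `K = k / 2`, and the others are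
`≤ psi k (1 - r) (1 / E) p`. -/
theorem W_TD {n k a : ℕ} (hk : 4 ≤ k) (h : Even (n * k)) (ha : 1 ≤ a) {z r W : ℚ}
    (hr : 0 < r) (hr1 : r ≤ 1) (hW : 0 ≤ W)
    (hWF : ∀ η : ℚ, 0 ≤ η → W * (1 - r + η / (a * (n + k) : ℕ)) ≤
        3 * z * (1 + η) + 3 / 2 * (1 - r + η / (a * (n + k) : ℕ))) {i : ℕ} (hi : 2 * i < k / 2) :
    W * TD n k a r i ≤
      WF z (1 - r) (1 / (a * (n + k) : ℕ)) (((k : ℚ) + 1) / (2 * ((k / 2 - 2 * i : ℕ) : ℚ))) *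
        ∏ p ∈ Ico (k / 2 - 2 * i) (k / 2), psi k (1 - r) (1 / (a * (n + k) : ℕ)) p := by
  have hq : ((k / 2 - 2 * i - 1 : ℕ) : ℚ) + 1 = ((k / 2 - 2 * i : ℕ) : ℚ) := by
    rw [Nat.cast_sub (by omega)]
    simp
  have h1 := g3_e hk h ha (p := k / 2 - 2 * i - 1) (by omega)
  rw [hq] at h1
  have hη : 0 ≤ ((k : ℚ) + 1) / (2 * ((k / 2 - 2 * i : ℕ) : ℚ)) := by positivity
  have h2 : W * (1 - r + 1 / ((a * (n + je n (k / 2 - 2 * i - 1)) : ℕ) : ℚ)) ≤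
      WF z (1 - r) (1 / (a * (n + k) : ℕ)) (((k : ℚ) + 1) / (2 * ((k / 2 - 2 * i : ℕ) : ℚ))) := by
    refine le_trans (mul_le_mul_of_nonneg_left ?_ hW) (g3_WF hη hWF)
    linarith
  have h3 : ∏ p ∈ Ico (k / 2 - 2 * i) (k / 2), (1 - r + 2 / ((a * (n + je n p) : ℕ) : ℚ)) ≤
      ∏ p ∈ Ico (k / 2 - 2 * i) (k / 2), psi k (1 - r) (1 / (a * (n + k) : ℕ)) p := by
    apply prod_le_prod
    · intro p hp
      exact (g3_psi hk h ha hr1 (mem_Ico.1 hp).2).1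
    · intro p hp
      exact (g3_psi hk h ha hr1 (mem_Ico.1 hp).2).2
  have h4 : 0 ≤ ∏ p ∈ Ico (k / 2 - 2 * i) (k / 2), (1 - r + 2 / ((a * (n + je n p) : ℕ) : ℚ)) :=
    prod_nonneg fun p hp => (g3_psi hk h ha hr1 (mem_Ico.1 hp).2).1
  have h5 : 0 ≤ W * (1 - r + 1 / ((a * (n + je n (k / 2 - 2 * i - 1)) : ℕ) : ℚ)) := by
    apply mul_nonneg hW
    have : 0 ≤ 1 / ((a * (n + je n (k / 2 - 2 * i - 1)) : ℕ) : ℚ) := by positivity
    linarith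
  unfold TD
  rw [← mul_assoc]
  exact mul_le_mul h2 h3 h4 (h5.trans h2)

/-- TASK G3. The last factor is `≤ 2 (1 - r + 2 / E)` (`2 e ≥ E`), the others are `≤ psi`. -/
theorem W_L {n k a : ℕ} (hk : 4 ≤ k) (h : Even (n * k)) (ha : 1 ≤ a) {z r W : ℚ}
    (hr : 0 < r) (hr1 : r ≤ 1) (hW : 0 ≤ W)
    (hWF : ∀ η : ℚ, 0 ≤ η → W * (1 - r + η / (a * (n + k) : ℕ)) ≤
        3 * z * (1 + η) + 3 / 2 * (1 - r + η / (a * (n + k) : ℕ))) :
    W * (∏ p ∈ range (k / 2), (1 - r + 2 / ((a * (n + je n p) : ℕ) : ℚ))) ≤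
      2 * WF z (1 - r) (1 / (a * (n + k) : ℕ)) 2 *
        ∏ p ∈ range (k / 2 - 1), psi k (1 - r) (1 / (a * (n + k) : ℕ)) p := by
  have hE := g3_E (n := n) (k := k) (a := a) (by omega) ha
  obtain ⟨K, hK⟩ : ∃ K, k / 2 = K + 1 := ⟨k / 2 - 1, by omega⟩
  have he : (0 : ℚ) < ((a * (n + je n K) : ℕ) : ℚ) := g3_E (je_pos n K) ha
  have h1 := je_lower hk h (i := K) (by omega)
  have h2 : n + k ≤ 2 * (n + je n K) := by
    have h3 : k + 1 ≤ 2 * (K + 2) := by omega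
    have h4 : 2 * (K + 1) * (n + k) ≤ 2 * (K + 2) * (n + je n K) :=
      h1.trans (Nat.mul_le_mul_right _ h3)
    have h5 : (K + 2) * (n + k) ≤ (K + 2) * (2 * (n + je n K)) := by
      have : (K + 2) * (n + k) ≤ 2 * (K + 1) * (n + k) := Nat.mul_le_mul_right _ (by omega)
      calc (K + 2) * (n + k) ≤ 2 * (K + 1) * (n + k) := this
        _ ≤ 2 * (K + 2) * (n + je n K) := h4
        _ = (K + 2) * (2 * (n + je n K)) := by ring
    exact Nat.le_of_mul_le_mul_left h5 (by omega)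
  have h6 : ((a * (n + k) : ℕ) : ℚ) ≤ 2 * ((a * (n + je n K) : ℕ) : ℚ) := by
    have : a * (n + k) ≤ 2 * (a * (n + je n K)) := by
      calc a * (n + k) ≤ a * (2 * (n + je n K)) := Nat.mul_le_mul_left a h2
        _ = 2 * (a * (n + je n K)) := by ring
    exact_mod_cast this
  have h7 : 2 / ((a * (n + je n K) : ℕ) : ℚ) ≤ 2 * (2 / ((a * (n + k) : ℕ) : ℚ)) := by
    rw [mul_div_assoc', div_le_div_iff₀ he hE]
    linarith
  have h8 : W * (1 - r + 2 / ((a * (n + je n K) : ℕ) : ℚ)) ≤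
      2 * WF z (1 - r) (1 / (a * (n + k) : ℕ)) 2 := by
    have h9 := g3_WF (η := 2) (by norm_num) hWF
    calc W * (1 - r + 2 / ((a * (n + je n K) : ℕ) : ℚ))
        ≤ W * (2 * (1 - r + 2 / ((a * (n + k) : ℕ) : ℚ))) := by
          apply mul_le_mul_of_nonneg_left _ hW
          linarith
      _ = 2 * (W * (1 - r + 2 / ((a * (n + k) : ℕ) : ℚ))) := by ring
      _ ≤ 2 * WF z (1 - r) (1 / (a * (n + k) : ℕ)) 2 := by linarith
  rw [hK, prod_range_succ, Nat.add_sub_cancel]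
  have h3 : ∏ p ∈ range K, (1 - r + 2 / ((a * (n + je n p) : ℕ) : ℚ)) ≤
      ∏ p ∈ range K, psi k (1 - r) (1 / (a * (n + k) : ℕ)) p := by
    apply prod_le_prod
    · intro p hp
      exact (g3_psi hk h ha hr1 (by have := mem_range.1 hp; omega)).1
    · intro p hp
      exact (g3_psi hk h ha hr1 (by have := mem_range.1 hp; omega)).2
  have h4 : 0 ≤ ∏ p ∈ range K, (1 - r + 2 / ((a * (n + je n p) : ℕ) : ℚ)) :=
    prod_nonneg fun p hp => (g3_psi hk h ha hr1 (by have := mem_range.1 hp; omega)).1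
  have h5 : 0 ≤ W * (1 - r + 2 / ((a * (n + je n K) : ℕ) : ℚ)) := by
    apply mul_nonneg hW
    have : 0 ≤ 2 / ((a * (n + je n K) : ℕ) : ℚ) := by positivity
    linarith
  calc W * ((∏ p ∈ range K, (1 - r + 2 / ((a * (n + je n p) : ℕ) : ℚ))) *
        (1 - r + 2 / ((a * (n + je n K) : ℕ) : ℚ)))
      = (W * (1 - r + 2 / ((a * (n + je n K) : ℕ) : ℚ))) *
        ∏ p ∈ range K, (1 - r + 2 / ((a * (n + je n p) : ℕ) : ℚ)) := by ring
    _ ≤ _ := mul_le_mul h8 h3 h4 (h5.trans h8)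

/-- TASK G3. `1 / bv r d ≤ 1 / (d r ^ (d - 1))` (`mul_pow_pred_le_bv`). -/
theorem W_S {n k a d s : ℕ} (hd : 1 ≤ d) {z r W : ℚ}
    (hr : 0 < r) (hr1 : r ≤ 1) (hW : 0 ≤ W) (ha : 1 ≤ a) (hk : 1 ≤ k)
    (hWF : ∀ η : ℚ, 0 ≤ η → W * (1 - r + η / (a * (n + k) : ℕ)) ≤
        3 * z * (1 + η) + 3 / 2 * (1 - r + η / (a * (n + k) : ℕ))) :
    W * (2 * (1 - r + 2 / ((a * (n + k) : ℕ) : ℚ)) * (1 / bv r d) ^ (s - 1) *
        (∏ i ∈ range (k / 2 - s), (1 - r + ((k : ℚ) + 1) / (((i : ℚ) + 1) * (a * (n + k) : ℕ))))) ≤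
      2 * WF z (1 - r) (1 / (a * (n + k) : ℕ)) 2 * (1 / (d * (1 - (1 - r)) ^ (d - 1))) ^ (s - 1) *
        ∏ p ∈ range (k / 2 - s), psi k (1 - r) (1 / (a * (n + k) : ℕ)) p := by
  have hE := g3_E (n := n) hk ha
  have h1 : ∏ i ∈ range (k / 2 - s), (1 - r + ((k : ℚ) + 1) / (((i : ℚ) + 1) * (a * (n + k) : ℕ))) =
      ∏ p ∈ range (k / 2 - s), psi k (1 - r) (1 / (a * (n + k) : ℕ)) p := by
    apply prod_congr rfl
    intro p _
    unfold psi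
    have hp : (0 : ℚ) < (p : ℚ) + 1 := by positivity
    have h3 : ((k : ℚ) + 1) / (((p : ℚ) + 1) * ((a * (n + k) : ℕ) : ℚ)) =
        ((k : ℚ) + 1) * (1 / ((a * (n + k) : ℕ) : ℚ)) / ((p : ℚ) + 1) := by
      field_simp
    rw [h3]
  rw [h1]
  have h2 : 0 ≤ ∏ p ∈ range (k / 2 - s), psi k (1 - r) (1 / (a * (n + k) : ℕ)) p :=
    prod_nonneg fun p _ => g3_psi_nonneg hr1 p
  have hdq : (0 : ℚ) < (d : ℚ) := by exact_mod_cast hd
  have h3 : (d : ℚ) * (1 - (1 - r)) ^ (d - 1) ≤ bv r d := by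
    rw [sub_sub_cancel]
    exact mul_pow_pred_le_bv hr.le hr1 d
  have h4 : 0 < (d : ℚ) * (1 - (1 - r)) ^ (d - 1) := by
    rw [sub_sub_cancel]
    positivity
  have h5 : (1 / bv r d) ^ (s - 1) ≤ (1 / (d * (1 - (1 - r)) ^ (d - 1))) ^ (s - 1) := by
    apply pow_le_pow_left₀
    · have := h4.trans_le h3
      positivity
    · exact one_div_le_one_div_of_le h4 h3
  have h6 : 0 ≤ (1 / bv r d) ^ (s - 1) := by
    have := h4.trans_le h3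
    positivity
  have h9 := g3_WF (η := 2) (by norm_num) hWF
  have h10 : 0 ≤ W * (1 - r + 2 / ((a * (n + k) : ℕ) : ℚ)) := by
    apply mul_nonneg hW
    have : 0 ≤ 2 / ((a * (n + k) : ℕ) : ℚ) := by positivity
    linarith
  calc W * (2 * (1 - r + 2 / ((a * (n + k) : ℕ) : ℚ)) * (1 / bv r d) ^ (s - 1) *
        ∏ p ∈ range (k / 2 - s), psi k (1 - r) (1 / (a * (n + k) : ℕ)) p)
      = 2 * (W * (1 - r + 2 / ((a * (n + k) : ℕ) : ℚ))) * (1 / bv r d) ^ (s - 1) *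
        ∏ p ∈ range (k / 2 - s), psi k (1 - r) (1 / (a * (n + k) : ℕ)) p := by ring
    _ ≤ 2 * WF z (1 - r) (1 / (a * (n + k) : ℕ)) 2 * (1 / (d * (1 - (1 - r)) ^ (d - 1))) ^ (s - 1) *
        ∏ p ∈ range (k / 2 - s), psi k (1 - r) (1 / (a * (n + k) : ℕ)) p := by
        apply mul_le_mul_of_nonneg_right _ h2
        apply mul_le_mul _ h5 h6 (by linarith)
        linarith

/-! ### END G3 -/

/-! ### BEGIN G4 -/

private theorem g4_pow {Z : PowerSeries ℚ} (hZ : Z = X ∨ Z = -X) (e y : ℕ) (F : PowerSeries ℚ) :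
    |coeff (y + e) (Z ^ e * F)| = |coeff y F| := by
  rcases hZ with rfl | rfl
  · rw [coeff_X_pow_mul]
  · have h1 : (-X : PowerSeries ℚ) ^ e * F = PowerSeries.C ((-1) ^ e) * (X ^ e * F) := by
      rw [neg_pow, map_pow, map_neg, map_one, mul_assoc]
    rw [h1, coeff_C_mul, coeff_X_pow_mul, abs_mul, abs_pow, abs_neg, abs_one, one_pow, one_mul]

private theorem g4_one {Z : PowerSeries ℚ} (hZ : Z = X ∨ Z = -X) (e y : ℕ) (F : PowerSeries ℚ) :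
    |coeff (y + 1 + e) ((1 + Z) * Z ^ e * F)| ≤ |coeff (y + 1) F| + |coeff y F| := by
  have h1 : (1 + Z) * Z ^ e * F = Z ^ e * F + Z ^ (e + 1) * F := by
    rw [pow_succ]
    ring
  have h2 : y + 1 + e = y + (e + 1) := by omega
  rw [h1, map_add]
  refine (abs_add_le _ _).trans (add_le_add (g4_pow hZ e (y + 1) F).le ?_)
  rw [h2]
  exact (g4_pow hZ (e + 1) y F).le

private theorem g4_bound {Z S P : PowerSeries ℚ} (hZ : Z = X ∨ Z = -X) {K i m' : ℕ}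
    (hi : 2 * i < K) {r B : ℚ} (hr : 0 < r) (hr1 : r ≤ 1)
    (hb : ∀ y, |coeff y (S * P)| * r ^ y ≤ B) :
    |coeff (m' + K % 2 + K / 2) ((1 + Z) ^ (K % 2) * Z ^ (K / 2 - i) * S * P)| * r ^ (m' + i + 1) ≤
      (1 + ((K % 2 : ℕ) : ℚ)) * B := by
  rw [mul_assoc _ S P]
  rcases Nat.mod_two_eq_zero_or_one K with h0 | h0
  · rw [h0, pow_zero, one_mul, Nat.cast_zero, add_zero (1 : ℚ), one_mul]
    have h1 : m' + 0 + K / 2 = (m' + i) + (K / 2 - i) := by omega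
    rw [h1, g4_pow hZ]
    refine le_trans ?_ (hb (m' + i))
    exact mul_le_mul_of_nonneg_left (pow_le_pow_of_le_one hr.le hr1 (Nat.le_succ _)) (abs_nonneg _)
  · rw [h0, pow_one, Nat.cast_one]
    have h1 : m' + 1 + K / 2 = (m' + i) + 1 + (K / 2 - i) := by omega
    rw [h1]
    have h2 := g4_one hZ (K / 2 - i) (m' + i) (S * P)
    have h3 : 0 ≤ r ^ (m' + i + 1) := by positivity
    have h4 := mul_le_mul_of_nonneg_right h2 h3
    have h5 := hb (m' + i + 1)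
    have h6 : |coeff (m' + i) (S * P)| * r ^ (m' + i + 1) ≤ B := by
      refine le_trans ?_ (hb (m' + i))
      exact mul_le_mul_of_nonneg_left (pow_le_pow_of_le_one hr.le hr1 (Nat.le_succ _))
        (abs_nonneg _)
    have h7 : (|coeff (m' + i + 1) (S * P)| + |coeff (m' + i) (S * P)|) * r ^ (m' + i + 1) =
        |coeff (m' + i + 1) (S * P)| * r ^ (m' + i + 1) +
          |coeff (m' + i) (S * P)| * r ^ (m' + i + 1) := add_mul _ _ _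
    rw [h7] at h4
    linarith


/-- TASK G4. Coefficients of the D²-terms, at `M = m' + ε + K / 2`, `ε = K % 2` (`K = k / 2`):
`(1 ± X) ^ ε * X ^ (K / 2 - i)` shifts the index to `y = m' + ε + i` and (for `ε = 1`) `y - 1`; both
are `≤ m' + i + 1`, so by `bound_Sq` (`r ^ (m' + i + 1) ≤ r ^ y`). -/
theorem coeff_T1 {n k a : ℕ} (hk : 4 ≤ k) (h : Even (n * k)) (ha : Odd a) {r : ℚ} (hr : 0 < r)
    (hr1 : r ≤ 1) {i : ℕ} (hi : 2 * i < k / 2) (m' : ℕ) :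
    |coeff (m' + k / 2 % 2 + k / 2 / 2) ((1 + X) ^ (k / 2 % 2) * X ^ (k / 2 / 2 - i) *
        Sq (k / 2 - 2 * i) * Pr n k a)| * r ^ (m' + i + 1) ≤
      (1 + ((k / 2 % 2 : ℕ) : ℚ)) * (TD n k a r i * kap n k a r) := by
  exact g4_bound (Or.inl rfl) hi hr hr1 (fun y => bound_Sq hk h ha hr hr1 hi y)

/-- TASK G4. The same with `bound_Sx`. -/
theorem coeff_T2 {n k a : ℕ} (hk : 4 ≤ k) (h : Even (n * k)) (ha : Odd a) {r : ℚ} (hr : 0 < r)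
    (hr1 : r ≤ 1) {i : ℕ} (hi : 2 * i < k / 2) (m' : ℕ) :
    |coeff (m' + k / 2 % 2 + k / 2 / 2) ((1 - X) ^ (k / 2 % 2) * (-X) ^ (k / 2 / 2 - i) *
        Sx 1 (k / 2 - 2 * i) * Pr n k a)| * r ^ (m' + i + 1) ≤
      (1 + ((k / 2 % 2 : ℕ) : ℚ)) * (TD n k a r i * kap n k a r) := by
  have h1 := g4_bound (Z := -X) (Or.inr rfl) (m' := m') hi hr hr1
    (fun y => bound_Sx hk h ha hr hr1 hi y)
  rw [← sub_eq_add_neg] at h1
  exact h1

/-- TASK G4. The main terms (`i = 0`): by `Sq_Pr`, `Maj_Sx_Pr`, `kap1_le_kapP`, `kap1_mono`. Write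
`κ y` for `(kapP n k a).coeff y`. The first coefficient is `κ m'` (`ε = 0`) or `κ (m' + 1) + κ m'`
(`ε = 1`), the absolute value of the second is at most the same. As `β ≤ α`:
`α * (first) + β' * (second) ≥ (α - |β'|) * (κ .. ) ≥ (α - |β'|) (1 + ε) κ₁ m'`. -/
theorem coeff_T0 {n k a : ℕ} (hk : 4 ≤ k) (h : Even (n * k)) (ha : Odd a) {α β : ℚ}
    (hαβ : |β| ≤ α) {m' : ℕ}
    (hm2 : 2 * m' + k / 2 % 2 + k / 2 ≤ ∑ j ∈ Icc 1 k, a * (n + j)) :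
    (α - |β|) * (1 + ((k / 2 % 2 : ℕ) : ℚ)) * (kap1 n k a).coeff m' ≤
      α * coeff (m' + k / 2 % 2 + k / 2 / 2) ((1 + X) ^ (k / 2 % 2) * X ^ (k / 2 / 2) *
        Sq (k / 2) * Pr n k a) +
      β * coeff (m' + k / 2 % 2 + k / 2 / 2) ((1 - X) ^ (k / 2 % 2) * (-X) ^ (k / 2 / 2) *
        Sx 1 (k / 2) * Pr n k a) := by
  obtain ⟨κ, hκ⟩ : ∃ κ : ℕ → ℚ, κ = fun y => (kapP n k a).coeff y := ⟨_, rfl⟩
  have hS1 : ∀ y, coeff y (Sq (k / 2) * Pr n k a) = κ y := by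
    intro y
    rw [Sq_Pr hk h ha, Polynomial.coeff_coe, hκ]
  have hS2 : ∀ y, |coeff y (Sx 1 (k / 2) * Pr n k a)| ≤ κ y := by
    intro y
    rw [hκ]
    exact Maj_Sx_Pr hk h ha y
  have ha1 : 1 ≤ a := ha.pos
  have hk1 : ∀ y, (kap1 n k a).coeff y ≤ κ y := by
    intro y
    rw [hκ]
    exact kap1_le_kapP hk h ha1 y
  have hab : 0 ≤ α - |β| := by linarith
  have hβ := neg_abs_le β
  -- the general step
  have key : ∀ A B T : ℚ, T ≤ A → |B| ≤ A → 0 ≤ A → (α - |β|) * T ≤ α * A + β * B := by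
    intro A B T h1 h2 h3
    have h4 : (α - |β|) * T ≤ (α - |β|) * A := mul_le_mul_of_nonneg_left h1 hab
    have h5 : |β * B| ≤ |β| * A := by
      rw [abs_mul]
      exact mul_le_mul_of_nonneg_left h2 (abs_nonneg _)
    have h6 := neg_abs_le (β * B)
    have h7 : (α - |β|) * A = α * A - |β| * A := by ring
    linarith
  rw [mul_assoc _ (Sq (k / 2)), mul_assoc _ (Sx 1 (k / 2)), mul_assoc (α - |β|)]
  rcases Nat.mod_two_eq_zero_or_one (k / 2) with h0 | h0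
  · rw [h0, pow_zero, pow_zero, one_mul, one_mul, Nat.cast_zero, add_zero, one_mul, add_zero]
    refine key _ _ _ ?_ ?_ ?_
    · rw [coeff_X_pow_mul, hS1]
      exact hk1 m'
    · rw [g4_pow (Or.inr rfl), coeff_X_pow_mul, hS1]
      exact hS2 m'
    · rw [coeff_X_pow_mul, hS1]
      exact (abs_nonneg _).trans (hS2 m')
  · rw [h0] at hm2
    rw [h0, pow_one, pow_one, Nat.cast_one]
    have hA : coeff (m' + 1 + k / 2 / 2) ((1 + X) * X ^ (k / 2 / 2) *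
        (Sq (k / 2) * Pr n k a)) = κ (m' + 1) + κ m' := by
      have h1 : (1 + X) * X ^ (k / 2 / 2) * (Sq (k / 2) * Pr n k a) =
          X ^ (k / 2 / 2) * (Sq (k / 2) * Pr n k a) +
            X ^ (k / 2 / 2 + 1) * (Sq (k / 2) * Pr n k a) := by
        rw [pow_succ]
        ring
      have h2 : coeff (m' + 1 + k / 2 / 2) (X ^ (k / 2 / 2 + 1) * (Sq (k / 2) * Pr n k a)) =
          κ m' := by
        have h3 : m' + 1 + k / 2 / 2 = m' + (k / 2 / 2 + 1) := by omega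
        rw [h3, coeff_X_pow_mul, hS1]
      rw [h1, map_add, coeff_X_pow_mul, hS1, h2]
    have hmono := kap1_mono hk h ha1 (m := m') (by omega)
    have e1 := hk1 m'
    have e2 := hk1 (m' + 1)
    refine key _ _ _ ?_ ?_ ?_
    · rw [hA]
      linarith
    · rw [hA, sub_eq_add_neg]
      refine (g4_one (Or.inr rfl) _ _ _).trans (add_le_add (hS2 _) (hS2 _))
    · rw [hA]
      exact add_nonneg ((abs_nonneg _).trans (hS2 _)) ((abs_nonneg _).trans (hS2 _))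

/-! ### END G4 -/

/-! ### BEGIN G5 -/

theorem g5_expand {n k a : ℕ} (D : Dat) (hid : Ident k D) (m : ℕ) :
    (D.den : ℚ) * coeff m (G k * Pr n k a) =
      (∑ i ∈ range ((k / 2 + 1) / 2),
        ((D.dpi i : ℚ) * coeff (m + hh k) ((1 + X) ^ (k / 2 % 2) * X ^ (k / 2 / 2 - i) *
          Sq (k / 2 - 2 * i) * Pr n k a) +
        (D.dmi i : ℚ) * coeff (m + hh k) ((1 - X) ^ (k / 2 % 2) * (-X) ^ (k / 2 / 2 - i) *
          Sx 1 (k / 2 - 2 * i) * Pr n k a))) +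
      (∑ t ∈ range (k - 2), ∑ u ∈ range (k / (t + 3)),
        coeff m ((∑ i ∈ range (t + 3), PowerSeries.C (D.Ni t u i : ℚ) * (-X : PowerSeries ℚ) ^ i) *
          Sx (t + 3) (u + 1) * Pr n k a)) -
      coeff (m + hh k) ((∑ i ∈ range (hh k), PowerSeries.C (D.Li i : ℚ) *
        (X : PowerSeries ℚ) ^ i) * Pr n k a) := by
  unfold Ident at hid
  have h1 : (D.den : ℚ) * coeff m (G k * Pr n k a) =
      coeff (m + hh k) ((PowerSeries.C (D.den : ℚ) * X ^ hh k * G k) * Pr n k a) := by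
    rw [mul_assoc, mul_assoc, PowerSeries.coeff_C_mul, PowerSeries.coeff_X_pow_mul]
  rw [h1, hid, sub_mul, add_mul, Finset.sum_mul, mul_assoc (X ^ hh k), map_sub, map_add, map_sum,
    PowerSeries.coeff_X_pow_mul, Finset.sum_mul, map_sum]
  congr 2
  · refine sum_congr rfl (fun i _ => ?_)
    rw [add_mul, map_add]
    congr 1
    · rw [← PowerSeries.coeff_C_mul]
      congr 1
      ring
    · rw [← PowerSeries.coeff_C_mul]
      congr 1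
      ring
  · refine sum_congr rfl (fun t _ => ?_)
    rw [Finset.sum_mul, map_sum]

/-- bound for one term: `x * r ^ (p + e) ≤ c * (T * κ)`, `κ ≤ C (W V)`, `W T ≤ U` -/
theorem g5_term {x r c T κ Cc W V U : ℚ} {p e : ℕ} (hr : 0 < r) (hx : |x| * r ^ (p + e) ≤ c * (T * κ))
    (hκ : κ ≤ Cc * (W * V)) (hc : 0 ≤ c) (hT : 0 ≤ T) (hCV : 0 ≤ Cc * V) (hU : W * T ≤ U) :
    |x| * r ^ p ≤ V * (Cc * (c * (r⁻¹ ^ e * U))) := by
  have h1 : |x| * r ^ p = (|x| * r ^ (p + e)) * r⁻¹ ^ e := by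
    rw [pow_add, inv_pow]
    field_simp
  have h2 : 0 ≤ r⁻¹ ^ e := by positivity
  rw [h1]
  calc (|x| * r ^ (p + e)) * r⁻¹ ^ e ≤ (c * (T * κ)) * r⁻¹ ^ e :=
        mul_le_mul_of_nonneg_right hx h2
    _ ≤ (c * (T * (Cc * (W * V)))) * r⁻¹ ^ e := by
        refine mul_le_mul_of_nonneg_right ?_ h2
        exact mul_le_mul_of_nonneg_left (mul_le_mul_of_nonneg_left hκ hT) hc
    _ = (c * r⁻¹ ^ e * (Cc * V)) * (W * T) := by ring
    _ ≤ (c * r⁻¹ ^ e * (Cc * V)) * U := by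
        refine mul_le_mul_of_nonneg_left hU ?_
        exact mul_nonneg (mul_nonneg hc h2) hCV
    _ = V * (Cc * (c * (r⁻¹ ^ e * U))) := by ring

theorem g5_TD_nonneg {n k a : ℕ} {r : ℚ} (hr1 : r ≤ 1) (i : ℕ) : 0 ≤ TD n k a r i := by
  have h1 : 0 ≤ 1 - r := by linarith
  unfold TD
  refine mul_nonneg (by positivity) (prod_nonneg (fun p _ => by positivity))

theorem g5_C1_nonneg (K : ℕ) : 0 ≤ C1 K := by
  unfold C1
  positivity

theorem g5_hh {k : ℕ} (hk : 4 ≤ k) : (k / 2 + 1) / 2 ≤ hh k := by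
  unfold hh
  have h1 : (k / 2 + 1) / 2 ≤ (k + 1) / 2 := by omega
  have h2 : 1 ≤ k / 2 := by omega
  calc (k / 2 + 1) / 2 ≤ 1 * ((k + 1) / 2) := by omega
    _ ≤ k / 2 * ((k + 1) / 2) := Nat.mul_le_mul_right _ h2

/-- TASK G5. **The main theorem for fixed data.** Here `m' = m + hh k - (K + 1) / 2`, `K = k / 2`
(`hh k ≥ (K + 1) / 2`), so that `m + hh k = m' + K % 2 + K / 2`, `m ≤ m'`.

PROOF. Let `E = a (n + k)`, take `r, W` of `main_low` for `m'` and put `V = κ₁(m') r ^ m' > 0`. Multiply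
`Ident` by `Pr` and take the coefficient of `q ^ (m + hh k)`: the left side is
`den * coeff m (G k * Pr)`. On the right side: the terms `i = 0` are at least
`(dp 0 - |dm 0|) (1 + ε) κ₁(m')` (`coeff_T0`); all other terms, multiplied by `r ^ m'`, have the sum of
absolute values at most `V * bud k D z (1 - r) (1 / E)`: D²-terms by `coeff_T1`, `coeff_T2`,
`kap ≤ C1 W V`, `W_TD`; the terms `(d, s)` by `bound_Sd` at the index `m ≤ m'` (`r ^ m' ≤ r ^ m`) and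
`W_S`, `abs_Ni_le`; the polynomial part by `bound_L` at the index `m + hh k = m' + (K + 1) / 2` and
`W_L`, `sum_abs_Li_le`. By `bud_mono` with `1 - r ≤ ρ₀ = (K - 1) / (M₀ + hh k - (K + 1) / 2 + K - 1)`,
`1 / E ≤ 1 / E₀` this is at most `(dp 0 - |dm 0|) (1 + ε) V`. -/
theorem final_pos {n k a : ℕ} (hk : 4 ≤ k) (h : Even (n * k)) (ha : Odd a) (D : Dat)
    (hden : 0 < D.den) (hid : Ident k D) {z : ℚ} (hz : 0 < z)
    (hz2 : 3 * ((k / 2 : ℕ) : ℚ) + 15 / 4 ≤ z ^ 2) {M0 E0 : ℕ} (hM0 : 1 ≤ M0) (hE0 : 1 ≤ E0)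
    (hαβ : |(D.dmi 0 : ℚ)| ≤ (D.dpi 0 : ℚ))
    (hbud : bud k D z (((k / 2 : ℕ) - 1 : ℚ) /
        (((M0 + hh k - (k / 2 + 1) / 2 : ℕ) : ℚ) + (k / 2 : ℕ) - 1)) (1 / (E0 : ℚ)) ≤
      ((D.dpi 0 : ℚ) - |(D.dmi 0 : ℚ)|) * (1 + ((k / 2 % 2 : ℕ) : ℚ)))
    (hE : E0 ≤ a * (n + k)) {m : ℕ} (hm : M0 ≤ m)
    (hm2 : 2 * m + 2 * hh k ≤ ∑ j ∈ Icc 1 k, a * (n + j)) :
    0 ≤ coeff m (G k * Pr n k a) := by
  have ha1 : 1 ≤ a := ha.pos
  have hhk := g5_hh hk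
  have hK : 2 ≤ k / 2 := by omega
  obtain ⟨m', hm'⟩ : ∃ m', m' = m + hh k - (k / 2 + 1) / 2 := ⟨_, rfl⟩
  obtain ⟨m0, hm0⟩ : ∃ m0, m0 = M0 + hh k - (k / 2 + 1) / 2 := ⟨_, rfl⟩
  have hmm : m ≤ m' := by omega
  have hM : m + hh k = m' + k / 2 % 2 + k / 2 / 2 := by omega
  have hM2 : m + hh k = m' + (k / 2 + 1) / 2 := by omega
  have hm01 : 1 ≤ m0 := by omega
  have hm0m : m0 ≤ m' := by omega
  obtain ⟨r, W, hrl, hr1, hW, hκ1, hκ, hWF⟩ := main_low (m := m') hk h ha1 hz hz2 (by omega)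
    (by omega)
  have hK1 : (1 : ℚ) ≤ ((k / 2 : ℕ) : ℚ) - 1 := by
    have : (2 : ℚ) ≤ ((k / 2 : ℕ) : ℚ) := by exact_mod_cast hK
    linarith
  have hm'q : (1 : ℚ) ≤ (m' : ℚ) := by exact_mod_cast (show 1 ≤ m' by omega)
  have hm0q : (1 : ℚ) ≤ (m0 : ℚ) := by exact_mod_cast hm01
  have hm0mq : (m0 : ℚ) ≤ (m' : ℚ) := by exact_mod_cast hm0m
  have hr : 0 < r := lt_of_lt_of_le (div_pos (by linarith) (by linarith)) hrl
  obtain ⟨V, hV⟩ : ∃ V, V = (kap1 n k a).coeff m' * r ^ m' := ⟨_, rfl⟩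
  rw [← hV] at hκ
  have hVpos : 0 < V := by rw [hV]; positivity
  have hCn := g5_C1_nonneg (k / 2)
  have hCV : 0 ≤ C1 (k / 2) * V := mul_nonneg hCn hVpos.le
  have hrρ : 1 - (1 - r) = r := by ring
  have hρn : 0 ≤ 1 - r := by linarith
  -- the terms
  obtain ⟨T1, hT1⟩ : ∃ T1 : ℕ → ℚ, T1 = fun i => coeff (m + hh k) ((1 + X) ^ (k / 2 % 2) *
    X ^ (k / 2 / 2 - i) * Sq (k / 2 - 2 * i) * Pr n k a) := ⟨_, rfl⟩
  obtain ⟨T2, hT2⟩ : ∃ T2 : ℕ → ℚ, T2 = fun i => coeff (m + hh k) ((1 - X) ^ (k / 2 % 2) *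
    (-X) ^ (k / 2 / 2 - i) * Sx 1 (k / 2 - 2 * i) * Pr n k a) := ⟨_, rfl⟩
  obtain ⟨S3, hS3⟩ : ∃ S3 : ℕ → ℕ → ℚ, S3 = fun t u => coeff m ((∑ i ∈ range (t + 3),
    PowerSeries.C (D.Ni t u i : ℚ) * (-X : PowerSeries ℚ) ^ i) * Sx (t + 3) (u + 1) *
      Pr n k a) := ⟨_, rfl⟩
  obtain ⟨L4, hL4⟩ : ∃ L4 : ℚ, L4 = coeff (m + hh k) ((∑ i ∈ range (hh k),
    PowerSeries.C (D.Li i : ℚ) * (X : PowerSeries ℚ) ^ i) * Pr n k a) := ⟨_, rfl⟩
  have hexp : (D.den : ℚ) * coeff m (G k * Pr n k a) =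
      (∑ i ∈ range ((k / 2 + 1) / 2), ((D.dpi i : ℚ) * T1 i + (D.dmi i : ℚ) * T2 i)) +
      (∑ t ∈ range (k - 2), ∑ u ∈ range (k / (t + 3)), S3 t u) - L4 := by
    rw [g5_expand D hid m, hT1, hT2, hS3, hL4]
  -- the main terms
  have h0 : ((D.dpi 0 : ℚ) - |(D.dmi 0 : ℚ)|) * (1 + ((k / 2 % 2 : ℕ) : ℚ)) * V ≤
      ((D.dpi 0 : ℚ) * T1 0 + (D.dmi 0 : ℚ) * T2 0) * r ^ m' := by
    have := coeff_T0 (m' := m') hk h ha hαβ (by omega)
    rw [← hM] at this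
    have h3 := mul_le_mul_of_nonneg_right this (pow_nonneg hr.le m')
    rw [hT1, hT2, hV]
    simp only [Nat.sub_zero, mul_zero]
    calc ((D.dpi 0 : ℚ) - |(D.dmi 0 : ℚ)|) * (1 + ((k / 2 % 2 : ℕ) : ℚ)) *
          ((kap1 n k a).coeff m' * r ^ m') = ((D.dpi 0 : ℚ) - |(D.dmi 0 : ℚ)|) *
          (1 + ((k / 2 % 2 : ℕ) : ℚ)) * (kap1 n k a).coeff m' * r ^ m' := by ring
      _ ≤ _ := h3
  -- the D²-terms
  have hTD : ∀ i, 2 * i < k / 2 → |(D.dpi i : ℚ) * T1 i + (D.dmi i : ℚ) * T2 i| * r ^ m' ≤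
      V * (C1 (k / 2) * ((1 + ((k / 2 % 2 : ℕ) : ℚ)) * ((|(D.dpi i : ℚ)| + |(D.dmi i : ℚ)|) *
        ((1 - (1 - r))⁻¹ ^ (i + 1) *
      (WF z (1 - r) (1 / (a * (n + k) : ℕ)) (((k : ℚ) + 1) / (2 * ((k / 2 - 2 * i : ℕ) : ℚ))) *
        ∏ p ∈ Ico (k / 2 - 2 * i) (k / 2), psi k (1 - r) (1 / (a * (n + k) : ℕ)) p))))) := by
    intro i hi
    have hε : (0 : ℚ) ≤ 1 + ((k / 2 % 2 : ℕ) : ℚ) := by positivity
    have hWT := W_TD (z := z) (W := W) hk h ha1 hr hr1 hW hWF hi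
    have b1 := coeff_T1 (m' := m') hk h ha hr hr1 hi
    have b2 := coeff_T2 (m' := m') hk h ha hr hr1 hi
    rw [← hM] at b1 b2
    have c1 := g5_term hr (by rw [add_assoc] at b1; exact b1) hκ hε (g5_TD_nonneg hr1 i) hCV hWT
    have c2 := g5_term hr (by rw [add_assoc] at b2; exact b2) hκ hε (g5_TD_nonneg hr1 i) hCV hWT
    have e1 : |(D.dpi i : ℚ) * T1 i + (D.dmi i : ℚ) * T2 i| ≤
        |(D.dpi i : ℚ)| * |T1 i| + |(D.dmi i : ℚ)| * |T2 i| := by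
      rw [← abs_mul, ← abs_mul]
      exact abs_add_le _ _
    rw [hrρ]
    have d1 := mul_le_mul_of_nonneg_left c1 (abs_nonneg (D.dpi i : ℚ))
    have d2 := mul_le_mul_of_nonneg_left c2 (abs_nonneg (D.dmi i : ℚ))
    have d3 := mul_le_mul_of_nonneg_right e1 (pow_nonneg hr.le m')
    rw [hT1, hT2] at d3 ⊢
    refine d3.trans ?_
    simp only
    nlinarith [d1, d2]
  -- the other poles
  have hSu : ∀ t u, u < k / (t + 3) → |S3 t u| * r ^ m' ≤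
      V * (C1 (k / 2) * ((D.nrm t u : ℚ) *
    (2 * WF z (1 - r) (1 / (a * (n + k) : ℕ)) 2 *
      (1 / (((t + 3 : ℕ) : ℚ) * (1 - (1 - r)) ^ (t + 2))) ^ u *
      ∏ p ∈ range (k / 2 - (u + 1)), psi k (1 - r) (1 / (a * (n + k) : ℕ)) p))) := by
    intro t u hu
    have hnn : 0 ≤ (D.nrm t u : ℚ) := (abs_nonneg _).trans (abs_Ni_le D t u 0)
    have hsd : (u + 1) * (t + 3) ≤ k := (Nat.le_div_iff_mul_le (by omega)).mp hu
    have b1 := bound_Sd hk h ha hr hr1 (d := t + 3) (s := u + 1) (by omega) (by omega) hsd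
      (fun i => (D.Ni t u i : ℚ)) (D.nrm t u : ℚ) hnn (fun i _ => abs_Ni_le D t u i) m
    have b2 := W_S (n := n) (k := k) (a := a) (d := t + 3) (s := u + 1) (z := z) (W := W)
      (by omega) hr hr1 hW ha1 (by omega) hWF
    simp only [Nat.add_sub_cancel] at b1 b2
    have e1 : t + 3 - 1 = t + 2 := rfl
    rw [e1] at b2
    have hT : 0 ≤ 2 * (1 - r + 2 / ((a * (n + k) : ℕ) : ℚ)) * (1 / bv r (t + 3)) ^ u *
        (∏ i ∈ range (k / 2 - (u + 1)), (1 - r + ((k : ℚ) + 1) /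
          (((i : ℚ) + 1) * (a * (n + k) : ℕ)))) := by
      have := bv_nonneg hr.le (t + 3)
      refine mul_nonneg (by positivity) (prod_nonneg (fun p _ => by positivity))
    have c1 := g5_term (p := m) (e := 0) hr (by rw [add_zero]; exact b1) hκ hnn hT hCV b2
    have e2 : |S3 t u| * r ^ m' ≤ |S3 t u| * r ^ m :=
      mul_le_mul_of_nonneg_left (pow_le_pow_of_le_one hr.le hr1 hmm) (abs_nonneg _)
    refine e2.trans ?_
    rw [hS3]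
    refine c1.trans (le_of_eq ?_)
    rw [pow_zero, one_mul]
  -- the polynomial part
  have hLL : |L4| * r ^ m' ≤ V * (C1 (k / 2) * ((D.nrmL : ℚ) *
      ((1 - (1 - r))⁻¹ ^ ((k / 2 + 1) / 2) *
    (2 * WF z (1 - r) (1 / (a * (n + k) : ℕ)) 2 *
      ∏ p ∈ range (k / 2 - 1), psi k (1 - r) (1 / (a * (n + k) : ℕ)) p)))) := by
    have b1 := bound_L hk h ha hr hr1 (hh k) (fun i => (D.Li i : ℚ)) (m + hh k)
    have b2 := W_L (z := z) (W := W) hk h ha1 hr hr1 hW hWF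
    have hT : 0 ≤ (∏ p ∈ range (k / 2), (1 - r + 2 / ((a * (n + je n p) : ℕ) : ℚ))) :=
      prod_nonneg (fun p _ => by positivity)
    have hκn : 0 ≤ kap n k a r := by
      unfold kap
      refine prod_nonneg (fun j _ => ?_)
      unfold wk
      split_ifs
      · exact bv_nonneg hr.le _
      · positivity
    have hnn : 0 ≤ (D.nrmL : ℚ) :=
      (sum_nonneg (fun i _ => abs_nonneg _)).trans (sum_abs_Li_le D 0)
    have b3 : |L4| * r ^ (m' + (k / 2 + 1) / 2) ≤ (D.nrmL : ℚ) *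
        ((∏ p ∈ range (k / 2), (1 - r + 2 / ((a * (n + je n p) : ℕ) : ℚ))) * kap n k a r) := by
      rw [← hM2, hL4]
      refine b1.trans ?_
      rw [mul_assoc]
      exact mul_le_mul_of_nonneg_right (sum_abs_Li_le D _) (mul_nonneg hT hκn)
    rw [hrρ]
    exact g5_term hr b3 hκ hnn hT hCV b2
  -- the sum
  have hb : bud k D z (1 - r) (1 / (a * (n + k) : ℕ)) ≤
      ((D.dpi 0 : ℚ) - |(D.dmi 0 : ℚ)|) * (1 + ((k / 2 % 2 : ℕ) : ℚ)) := by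
    refine le_trans (bud_mono k D hz.le hρn ?_ ?_ (by positivity) ?_) hbud
    · rw [← hm0]
      have h1 : 1 - r ≤ (((k / 2 : ℕ) : ℚ) - 1) / ((m' : ℚ) + (k / 2 : ℕ) - 1) := by
        have h2 : (m' : ℚ) / (m' + (k / 2 : ℕ) - 1) +
            (((k / 2 : ℕ) : ℚ) - 1) / ((m' : ℚ) + (k / 2 : ℕ) - 1) = 1 := by
          rw [← add_div]
          rw [div_eq_one_iff_eq (by linarith)]
          ring
        linarith
      refine h1.trans ?_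
      exact div_le_div_of_nonneg_left (by linarith) (by linarith) (by linarith)
    · rw [← hm0, div_lt_one (by linarith)]
      linarith
    · have h1 : (0 : ℚ) < E0 := by exact_mod_cast hE0
      have h2 : (E0 : ℚ) ≤ ((a * (n + k) : ℕ) : ℚ) := by exact_mod_cast hE
      exact one_div_le_one_div_of_le h1 h2
  have hsum : (∑ i ∈ range ((k / 2 + 1) / 2), ((D.dpi i : ℚ) * T1 i + (D.dmi i : ℚ) * T2 i)) =
      ((D.dpi 0 : ℚ) * T1 0 + (D.dmi 0 : ℚ) * T2 0) +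
      ∑ i ∈ Ico 1 ((k / 2 + 1) / 2), ((D.dpi i : ℚ) * T1 i + (D.dmi i : ℚ) * T2 i) := by
    rw [range_eq_Ico, sum_eq_sum_Ico_succ_bot (by omega)]
  have k1 : |∑ i ∈ Ico 1 ((k / 2 + 1) / 2), ((D.dpi i : ℚ) * T1 i + (D.dmi i : ℚ) * T2 i)| * r ^ m' ≤
      V * (C1 (k / 2) * bud1 k D z (1 - r) (1 / (a * (n + k) : ℕ))) := by
    unfold bud1
    rw [mul_sum, mul_sum, mul_sum]
    refine (mul_le_mul_of_nonneg_right (abs_sum_le_sum_abs _ _) (pow_nonneg hr.le m')).trans ?_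
    rw [sum_mul]
    refine sum_le_sum (fun i hi => ?_)
    have hi' := (mem_Ico.mp hi).2
    exact hTD i (by omega)
  have k2 : |∑ t ∈ range (k - 2), ∑ u ∈ range (k / (t + 3)), S3 t u| * r ^ m' ≤
      V * (C1 (k / 2) * bud3 k D z (1 - r) (1 / (a * (n + k) : ℕ))) := by
    unfold bud3
    rw [mul_sum, mul_sum]
    refine (mul_le_mul_of_nonneg_right (abs_sum_le_sum_abs _ _) (pow_nonneg hr.le m')).trans ?_
    rw [sum_mul]
    refine sum_le_sum (fun t _ => ?_)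
    rw [mul_sum, mul_sum]
    refine (mul_le_mul_of_nonneg_right (abs_sum_le_sum_abs _ _) (pow_nonneg hr.le m')).trans ?_
    rw [sum_mul]
    exact sum_le_sum (fun u hu => hSu t u (mem_range.mp hu))
  have k3 : |L4| * r ^ m' ≤ V * (C1 (k / 2) * bud4 k D z (1 - r) (1 / (a * (n + k) : ℕ))) := hLL
  have k4 := mul_le_mul_of_nonneg_left hb hVpos.le
  have hrp : 0 < r ^ m' := pow_pos hr m'
  have key : 0 ≤ ((D.den : ℚ) * coeff m (G k * Pr n k a)) * r ^ m' := by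
    rw [hexp, hsum]
    unfold bud at k4
    obtain ⟨A1, hA1⟩ : ∃ A1, A1 = ∑ i ∈ Ico 1 ((k / 2 + 1) / 2),
      ((D.dpi i : ℚ) * T1 i + (D.dmi i : ℚ) * T2 i) := ⟨_, rfl⟩
    obtain ⟨A2, hA2⟩ : ∃ A2, A2 = ∑ t ∈ range (k - 2), ∑ u ∈ range (k / (t + 3)), S3 t u :=
      ⟨_, rfl⟩
    rw [← hA1] at k1 ⊢
    rw [← hA2] at k2 ⊢
    have l1 := mul_le_mul_of_nonneg_right (neg_abs_le A1) hrp.le
    have l2 := mul_le_mul_of_nonneg_right (neg_abs_le A2) hrp.le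
    have l3 := mul_le_mul_of_nonneg_right (le_abs_self L4) hrp.le
    linarith
  have hdenq : (0 : ℚ) < D.den := by exact_mod_cast hden
  have key2 : 0 ≤ (D.den : ℚ) * coeff m (G k * Pr n k a) := nonneg_of_mul_nonneg_left key hrp
  exact nonneg_of_mul_nonneg_right key2 hdenq

/-! ### END G5 -/

end Pool.Agent.SignedQ.Sm
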